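import Pool.Agent.H.MP_d84959_lc.A

namespace Pool.Agent.Results.MP_d84959_lc.Sharing

open Pool.Agent.H.MP_d84959_lc

theorem result (φ ψ : Fm) (h : HasTree Par True (.imp φ ψ)) :
    ∃ n, n ∈ letters φ ∧ n ∈ letters ψ := sharing h

end Pool.Agent.Results.MP_d84959_lc.Sharing
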